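import Pool.Agent.Lib_helper68.MC.Defs
import Pool.Agent.Lib_helper25.PV.B5b
import Pool.Agent.Lib_helper57.HE.SH
import Pool.Agent.Lib_helper89.HE.GL

/-! Project MC (MP_b08f5f_an), block DY_birkhoff: Birkhoff and Markov on the cone. -/

set_option autoImplicit false

namespace Pool.Agent.Lib_helper68.MC

open MeasureTheory Filter Topology Set
open scoped ComplexConjugate ENNReal NNReal
open Pool.Agent.Lib_helper25.PV (Conf vel Motion centre inertia NC VFlow)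
open Pool.Agent.Lib_helper12.HE (ham rad nrm Gam sig shell turn one LimAvg)

noncomputable section

theorem DYB_meas_centre (N : ℕ) : Measurable (centre (N := N)) := by
  unfold centre
  fun_prop

theorem DYB_meas_rad (N : ℕ) : Measurable (rad (N := N)) := by
  unfold rad centre
  fun_prop

theorem DYB_meas_nrm (N : ℕ) : Measurable (nrm (N := N)) := by
  refine measurable_pi_lambda _ fun i => ?_
  unfold nrm
  have h1 := DYB_meas_rad N
  have h2 := DYB_meas_centre N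
  fun_prop

theorem DYB_meas_shell (N : ℕ) (ε : ℝ) : MeasurableSet (shell N ε) := by
  refine MeasurableSet.inter ?_ (MeasurableSet.inter ?_ ?_)
  · exact measurableSet_le (DYB_meas_centre N).norm measurable_const
  · exact measurableSet_le measurable_const (DYB_meas_rad N)
  · exact measurableSet_lt (DYB_meas_rad N) measurable_const

/-- change of the time scale in an average -/
theorem DYB_scale {F : ℝ → ℝ} {c l : ℝ} (hc : 0 < c)
    (h : Tendsto (fun T : ℝ => T⁻¹ * ∫ t in (0 : ℝ)..T, F (t / c)) atTop (𝓝 l)) :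
    Tendsto (fun T : ℝ => T⁻¹ * ∫ t in (0 : ℝ)..T, F t) atTop (𝓝 l) := by
  have h1 : Tendsto (fun T : ℝ => c * T) atTop atTop := tendsto_id.const_mul_atTop hc
  refine (h.comp h1).congr fun T => ?_
  have h2 : ∫ t in (0 : ℝ)..c * T, F (t / c) = c * ∫ t in (0 : ℝ)..T, F t := by
    rw [intervalIntegral.integral_comp_div (fun t => F t) hc.ne', zero_div,
      mul_div_cancel_left₀ _ hc.ne', smul_eq_mul]
  show (c * T)⁻¹ * ∫ t in (0 : ℝ)..c * T, F (t / c) = _
  rw [h2, mul_inv]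
  have h3 : c⁻¹ * c = 1 := inv_mul_cancel₀ hc.ne'
  linear_combination (T⁻¹ * ∫ t in (0 : ℝ)..T, F t) * h3

theorem DYB_ind_le {α : Type*} (W : Set α) (x : α) :
    0 ≤ W.indicator (fun _ => (1 : ℝ)) x ∧ W.indicator (fun _ => (1 : ℝ)) x ≤ 1 := by
  by_cases h : x ∈ W
  · rw [Set.indicator_of_mem h]
    exact ⟨zero_le_one, le_rfl⟩
  · rw [Set.indicator_of_notMem h]
    exact ⟨le_rfl, zero_le_one⟩

/-- the fraction of the time up to `n` in `W` -/
def DYB_E {α : Type*} (φ : ℝ → α → α) (W : Set α) (n : ℕ) (x : α) : ℝ≥0∞ :=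
  (n : ℝ≥0∞)⁻¹ * ∫⁻ t in Ioc (0 : ℝ) n, W.indicator (fun _ => (1 : ℝ≥0∞)) (φ t x)

theorem DYB_E_eq {α : Type*} [MeasurableSpace α] (φ : ℝ → α → α)
    (hmeas : Measurable (fun p : ℝ × α => φ p.1 p.2)) {W : Set α} (hW : MeasurableSet W) {n : ℕ}
    (hn : 0 < n) (x : α) :
    ENNReal.ofReal ((n : ℝ)⁻¹ * ∫ t in (0 : ℝ)..n, W.indicator (fun _ => (1 : ℝ)) (φ t x)) =
      DYB_E φ W n x := by
  have hn' : (0 : ℝ) < n := by exact_mod_cast hn
  have hm : Measurable fun t : ℝ => W.indicator (fun _ => (1 : ℝ)) (φ t x) :=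
    (measurable_const.indicator hW).comp (hmeas.comp (measurable_id.prodMk measurable_const))
  rw [intervalIntegral.integral_of_le hn'.le, ENNReal.ofReal_mul (by positivity),
    ENNReal.ofReal_inv_of_pos hn', ENNReal.ofReal_natCast, ofReal_integral_eq_lintegral_ofReal]
  · unfold DYB_E
    congr 1
    refine lintegral_congr fun t => ?_
    by_cases h : φ t x ∈ W
    · rw [Set.indicator_of_mem h, Set.indicator_of_mem h, ENNReal.ofReal_one]
    · rw [Set.indicator_of_notMem h, Set.indicator_of_notMem h, ENNReal.ofReal_zero]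
  · refine Integrable.of_bound hm.aestronglyMeasurable 1 (Eventually.of_forall fun t => ?_)
    rw [Real.norm_eq_abs, abs_of_nonneg (DYB_ind_le W _).1]
    exact (DYB_ind_le W _).2
  · exact Eventually.of_forall fun t => (DYB_ind_le W _).1

/-- Birkhoff and Markov for a measurable flow -/
theorem DYB_markov {α : Type*} [MeasurableSpace α] (μ : Measure α) [IsFiniteMeasure μ]
    (φ : ℝ → α → α) (h0 : ∀ x, φ 0 x = x) (hadd : ∀ s t x, φ (s + t) x = φ s (φ t x))
    (hmeas : Measurable (fun p : ℝ × α => φ p.1 p.2)) (hmp : ∀ t, MeasurePreserving (φ t) μ μ)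
    {W : Set α} (hW : MeasurableSet W) {δ : ℝ} (hδ : 0 < δ) :
    ∃ D : Set α, μ D ≤ ENNReal.ofReal (1 / δ) * μ W ∧
      ∀ x ∉ D, ∃ l ≤ δ, Tendsto (fun T : ℝ =>
        T⁻¹ * ∫ t in (0 : ℝ)..T, W.indicator (fun _ => (1 : ℝ)) (φ t x)) atTop (𝓝 l) := by
  have hfm : Measurable fun x => ((W.indicator (fun _ => (1 : ℝ)) x : ℝ) : ℂ) :=
    Complex.measurable_ofReal.comp (measurable_const.indicator hW)
  obtain ⟨g, hg, -, hlim, -⟩ := Pool.Agent.Lib_helper25.PV.phase_ergodic μ φ h0 hadd hmeas hmp 0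
    hfm (C := 1) fun x => by
      rw [Complex.norm_real, Real.norm_eq_abs, abs_of_nonneg (DYB_ind_le W x).1]
      exact (DYB_ind_le W x).2
  have hlim' : ∀ᵐ x ∂μ, Tendsto (fun T : ℝ =>
      T⁻¹ * ∫ t in (0 : ℝ)..T, W.indicator (fun _ => (1 : ℝ)) (φ t x)) atTop (𝓝 (g x).re) := by
    filter_upwards [hlim] with x hx
    refine ((Complex.continuous_re.tendsto _).comp hx).congr fun T => ?_
    have h1 : ∫ t in (0 : ℝ)..T, Complex.exp (((0 : ℝ) : ℂ) * t * Complex.I) *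
        ((W.indicator (fun _ => (1 : ℝ)) (φ t x) : ℝ) : ℂ) =
        ((∫ t in (0 : ℝ)..T, W.indicator (fun _ => (1 : ℝ)) (φ t x) : ℝ) : ℂ) := by
      rw [← intervalIntegral.integral_ofReal]
      refine intervalIntegral.integral_congr fun t _ => ?_
      simp only [Complex.ofReal_zero, zero_mul, Complex.exp_zero, one_mul]
    show ((T : ℂ)⁻¹ * ∫ t in (0 : ℝ)..T, Complex.exp (((0 : ℝ) : ℂ) * t * Complex.I) *
        ((W.indicator (fun _ => (1 : ℝ)) (φ t x) : ℝ) : ℂ)).re = _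
    rw [h1, ← Complex.ofReal_inv, ← Complex.ofReal_mul, Complex.ofReal_re]
  have hmeas1 : Measurable (W.indicator fun _ => (1 : ℝ≥0∞)) := measurable_const.indicator hW
  have hmeas2 : Measurable fun p : α × ℝ => W.indicator (fun _ => (1 : ℝ≥0∞)) (φ p.2 p.1) :=
    hmeas1.comp (hmeas.comp measurable_swap)
  have hmE : ∀ n, Measurable (DYB_E φ W n) := fun n =>
    (Measurable.lintegral_prod_right' (ν := volume.restrict (Ioc (0 : ℝ) n)) hmeas2).const_mul _
  have hint : ∀ n, 0 < n → ∫⁻ x, DYB_E φ W n x ∂μ = μ W := by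
    intro n hn
    unfold DYB_E
    rw [lintegral_const_mul _
      (Measurable.lintegral_prod_right' (ν := volume.restrict (Ioc (0 : ℝ) n)) hmeas2)]
    have h1 : ∫⁻ x, (∫⁻ t in Ioc (0 : ℝ) n, W.indicator (fun _ => (1 : ℝ≥0∞)) (φ t x)) ∂μ =
        ∫⁻ t in Ioc (0 : ℝ) n, (∫⁻ x, W.indicator (fun _ => (1 : ℝ≥0∞)) (φ t x) ∂μ) :=
      lintegral_lintegral_swap hmeas2.aemeasurable
    have h2 : ∀ t, ∫⁻ x, W.indicator (fun _ => (1 : ℝ≥0∞)) (φ t x) ∂μ = μ W := by
      intro t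
      rw [(hmp t).lintegral_comp hmeas1, lintegral_indicator_const hW, one_mul]
    rw [h1]
    simp only [h2]
    rw [setLIntegral_const, Real.volume_Ioc, sub_zero, ENNReal.ofReal_natCast, mul_comm (μ W),
      ← mul_assoc, ENNReal.inv_mul_cancel (by exact_mod_cast hn.ne') (ENNReal.natCast_ne_top n),
      one_mul]
  set G : α → ℝ≥0∞ := fun x => liminf (fun n => DYB_E φ W n x) atTop with hG
  have hGm : Measurable G := Measurable.liminf hmE
  have hGint : ∫⁻ x, G x ∂μ ≤ μ W := by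
    refine (lintegral_liminf_le hmE).trans (le_of_eq ?_)
    refine Tendsto.liminf_eq ?_
    refine tendsto_const_nhds.congr' ?_
    filter_upwards [eventually_gt_atTop 0] with n hn
    exact (hint n hn).symm
  refine ⟨{x | ¬ Tendsto (fun T : ℝ => T⁻¹ * ∫ t in (0 : ℝ)..T,
      W.indicator (fun _ => (1 : ℝ)) (φ t x)) atTop (𝓝 (g x).re)} ∪
      {x | ENNReal.ofReal δ ≤ G x}, ?_, ?_⟩
  · have h1 : μ {x | ¬ Tendsto (fun T : ℝ => T⁻¹ * ∫ t in (0 : ℝ)..T,
        W.indicator (fun _ => (1 : ℝ)) (φ t x)) atTop (𝓝 (g x).re)} = 0 := ae_iff.1 hlim'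
    have h2 : μ {x | ENNReal.ofReal δ ≤ G x} ≤ (∫⁻ x, G x ∂μ) / ENNReal.ofReal δ :=
      meas_ge_le_lintegral_div hGm.aemeasurable (ENNReal.ofReal_pos.2 hδ).ne'
        ENNReal.ofReal_ne_top
    calc μ ({x | ¬ Tendsto (fun T : ℝ => T⁻¹ * ∫ t in (0 : ℝ)..T,
          W.indicator (fun _ => (1 : ℝ)) (φ t x)) atTop (𝓝 (g x).re)} ∪
          {x | ENNReal.ofReal δ ≤ G x})
        ≤ 0 + (∫⁻ x, G x ∂μ) / ENNReal.ofReal δ := by
          refine (measure_union_le _ _).trans (add_le_add h1.le h2)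
      _ ≤ μ W / ENNReal.ofReal δ := by
          rw [zero_add]
          exact ENNReal.div_le_div_right hGint _
      _ = ENNReal.ofReal (1 / δ) * μ W := by
          rw [one_div, ENNReal.ofReal_inv_of_pos hδ, ENNReal.div_eq_inv_mul]
  · intro x hx
    rw [Set.mem_union, not_or] at hx
    have h1 : Tendsto (fun T : ℝ => T⁻¹ * ∫ t in (0 : ℝ)..T,
      W.indicator (fun _ => (1 : ℝ)) (φ t x)) atTop (𝓝 (g x).re) := not_not.1 hx.1
    have h2 : ¬ ENNReal.ofReal δ ≤ G x := hx.2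
    have h3 : G x = ENNReal.ofReal (g x).re := by
      refine Tendsto.liminf_eq ?_
      refine ((ENNReal.continuous_ofReal.tendsto _).comp
        (h1.comp tendsto_natCast_atTop_atTop)).congr' ?_
      filter_upwards [eventually_gt_atTop 0] with n hn
      exact DYB_E_eq φ hmeas hW hn x
    rw [h3, not_le] at h2
    exact ⟨_, ((ENNReal.ofReal_lt_ofReal_iff hδ).1 h2).le, h1⟩

/-- the part of the shell over `A` -/
def DYB_X (N : ℕ) (A : Set (Conf N)) : Set (Conf N) := {z | z ∈ shell N 1 ∧ nrm z ∈ A}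

theorem DYB_inj {N : ℕ} {z : Conf N} (h : nrm z ∈ Gam N) : Function.Injective z := by
  intro i j hij
  apply h.1
  simp only [nrm, hij]

theorem DYB_X_inv {N : ℕ} (hN : 2 ≤ N) (V : VFlow N) {A : Set (Conf N)} (hA : A ⊆ Gam N)
    (hinv : ∀ y ∈ A, ∀ t, V.φ t y ∈ A) {z : Conf N} (hz : z ∈ DYB_X N A) (t : ℝ) :
    V.φ t z ∈ DYB_X N A := by
  obtain ⟨⟨h1, h2, h3⟩, h4⟩ := hz
  have hr : 0 < rad z := by linarith
  refine ⟨⟨?_, ?_, ?_⟩, ?_⟩
  · rw [V.cen]; exact h1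
  · rw [Pool.Agent.Lib_helper12.HE.GL_rad_flow (by omega) V]; exact h2
  · rw [Pool.Agent.Lib_helper12.HE.GL_rad_flow (by omega) V]; exact h3
  · rw [Pool.Agent.Lib_helper12.HE.GL_nrm hN V (DYB_inj (hA h4)) hr]
    exact hinv _ h4 _

theorem DYB_meas_X {N : ℕ} {A : Set (Conf N)} (hAm : MeasurableSet A) :
    MeasurableSet (DYB_X N A) :=
  (DYB_meas_shell N 1).inter (DYB_meas_nrm N hAm)

theorem DYB_mp {N : ℕ} (hN : 2 ≤ N) (V : VFlow N) {A : Set (Conf N)} (hA : A ⊆ Gam N)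
    (hAm : MeasurableSet A) (hinv : ∀ y ∈ A, ∀ t, V.φ t y ∈ A) (t : ℝ) :
    MeasurePreserving (V.φ t) (volume.restrict (DYB_X N A)) (volume.restrict (DYB_X N A)) := by
  have h1 := (V.mp t).restrict_preimage (DYB_meas_X hAm)
  have h2 : V.φ t ⁻¹' DYB_X N A = DYB_X N A := by
    ext z
    constructor
    · intro h
      have h3 := DYB_X_inv hN V hA hinv h (-t)
      rw [← V.add, neg_add_cancel, V.zero] at h3
      exact h3
    · intro h
      exact DYB_X_inv hN V hA hinv h t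
  rwa [h2] at h1

/-- the averages along the motion of the normalised datum -/
theorem DYB_exists {N : ℕ} (hN : 2 ≤ N) (V : VFlow N) {z : Conf N} (hz : Function.Injective z)
    (hr : 0 < rad z)
    (hP : ∀ Ψ : Conf N → ℝ, Continuous Ψ → ∃ l : ℝ,
      Tendsto (fun T : ℝ => T⁻¹ * ∫ t in (0 : ℝ)..T, Ψ (V.φ t z)) atTop (𝓝 l))
    {Ψ : Conf N → ℝ} (hΨ : Continuous Ψ) : ∃ l, LimAvg (fun t => V.φ t (nrm z)) Ψ l := by
  obtain ⟨l, hl⟩ := hP (fun x => Ψ (fun i => ((rad z : ℝ) : ℂ)⁻¹ * (x i - centre z)))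
    (by fun_prop)
  refine ⟨l, ?_⟩
  have hr2 : 0 < rad z ^ 2 := by positivity
  refine DYB_scale (F := fun t => Ψ (V.φ t (nrm z))) hr2 (hl.congr fun T => ?_)
  congr 1
  refine intervalIntegral.integral_congr fun t _ => ?_
  have h1 := Pool.Agent.Lib_helper12.HE.GL_nrm hN V hz hr t
  show Ψ (fun i => ((rad z : ℝ) : ℂ)⁻¹ * (V.φ t z i - centre z)) =
    Ψ (V.φ (t / rad z ^ 2) (nrm z))
  rw [← h1]
  congr 1
  funext i
  rw [nrm, Pool.Agent.Lib_helper12.HE.GL_rad_flow (by omega) V, V.cen]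

theorem DYB_ae {N : ℕ} (V : VFlow N) : ∀ᵐ z : Conf N, ∀ Ψ : Conf N → ℝ, Continuous Ψ → ∃ l : ℝ,
    Tendsto (fun T : ℝ => T⁻¹ * ∫ t in (0 : ℝ)..T, Ψ (V.φ t z)) atTop (𝓝 l) := by
  filter_upwards [V.frames0 0] with z hz Ψ hΨ
  obtain ⟨l, hl⟩ := (hz Ψ hΨ).1 0
  refine ⟨l, hl.congr fun T => ?_⟩
  congr 1
  refine intervalIntegral.integral_congr fun t _ => ?_
  have h0 : Pool.Agent.Lib_helper25.PV.tw (0 * t + 0) (V.φ t z) = V.φ t z := by
    funext i
    simp [Pool.Agent.Lib_helper25.PV.tw]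
  simp only [h0]

/-- Birkhoff and Markov on the cone -/
theorem DY_birkhoff {N : ℕ} (hN : 2 ≤ N) (V : VFlow N) {A B : Set (Conf N)} (hA : A ⊆ Gam N)
    (hAm : MeasurableSet A) (hBm : MeasurableSet B) (hinv : ∀ y ∈ A, ∀ t, V.φ t y ∈ A)
    {δ : ℝ} (hδ : 0 < δ) : ∃ D : Set (Conf N), D ⊆ A ∧
      sig N D ≤ ENNReal.ofReal (1 / δ) * sig N {y | y ∈ A ∧ y ∈ B} ∧
      ∀ y ∈ A, y ∉ D → (∀ Ψ : Conf N → ℝ, Continuous Ψ → ∃ l, LimAvg (fun t => V.φ t y) Ψ l) ∧
        ∃ l ≤ δ, LimAvg (fun t => V.φ t y) (B.indicator fun _ => 1) l := by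
  have hfin : volume (DYB_X N A) < ⊤ :=
    (measure_mono fun z hz => hz.1).trans_lt (Pool.Agent.Lib_helper12.HE.SH_finite N hN 1)
  have : IsFiniteMeasure (volume.restrict (DYB_X N A)) := ⟨by
    rw [Measure.restrict_apply_univ]; exact hfin⟩
  have hW : MeasurableSet {x : Conf N | nrm x ∈ B} := DYB_meas_nrm N hBm
  obtain ⟨D, hD1, hD2⟩ := DYB_markov (volume.restrict (DYB_X N A)) V.φ V.zero V.add V.meas
    (DYB_mp hN V hA hAm hinv) hW hδ
  set P : Set (Conf N) := {z | ∀ Ψ : Conf N → ℝ, Continuous Ψ → ∃ l : ℝ,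
      Tendsto (fun T : ℝ => T⁻¹ * ∫ t in (0 : ℝ)..T, Ψ (V.φ t z)) atTop (𝓝 l)} with hPdef
  have hPc : volume Pᶜ = 0 := DYB_ae V
  have hgood : ∀ z ∈ DYB_X N A, z ∈ P → z ∉ D →
      (∀ Ψ : Conf N → ℝ, Continuous Ψ → ∃ l, LimAvg (fun t => V.φ t (nrm z)) Ψ l) ∧
        ∃ l ≤ δ, LimAvg (fun t => V.φ t (nrm z)) (B.indicator fun _ => 1) l := by
    intro z hz hP hzD
    obtain ⟨⟨h1, h2, h3⟩, h4⟩ := hz
    have hinj := DYB_inj (hA h4)
    have hr : 0 < rad z := by linarith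
    refine ⟨fun Ψ hΨ => DYB_exists hN V hinj hr hP hΨ, ?_⟩
    obtain ⟨l, hl, hlt⟩ := hD2 z hzD
    refine ⟨l, hl, ?_⟩
    have hr2 : 0 < rad z ^ 2 := by positivity
    refine DYB_scale (F := fun t => B.indicator (fun _ => (1 : ℝ)) (V.φ t (nrm z))) hr2
      (hlt.congr fun T => ?_)
    congr 1
    refine intervalIntegral.integral_congr fun t _ => ?_
    have h5 := Pool.Agent.Lib_helper12.HE.GL_nrm hN V hinj hr t
    show {x : Conf N | nrm x ∈ B}.indicator (fun _ => (1 : ℝ)) (V.φ t z) =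
      B.indicator (fun _ => (1 : ℝ)) (V.φ (t / rad z ^ 2) (nrm z))
    rw [← h5]
    by_cases h : nrm (V.φ t z) ∈ B
    · rw [Set.indicator_of_mem h, Set.indicator_of_mem (show V.φ t z ∈ {x | nrm x ∈ B} from h)]
    · rw [Set.indicator_of_notMem h,
        Set.indicator_of_notMem (show V.φ t z ∉ {x | nrm x ∈ B} from h)]
  refine ⟨{y | y ∈ A ∧ ¬ ((∀ Ψ : Conf N → ℝ, Continuous Ψ →
      ∃ l, LimAvg (fun t => V.φ t y) Ψ l) ∧
      ∃ l ≤ δ, LimAvg (fun t => V.φ t y) (B.indicator fun _ => 1) l)}, fun y hy => hy.1, ?_, ?_⟩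
  · unfold sig
    calc volume {z | z ∈ shell N 1 ∧ nrm z ∈ {y | y ∈ A ∧ ¬ ((∀ Ψ : Conf N → ℝ, Continuous Ψ →
          ∃ l, LimAvg (fun t => V.φ t y) Ψ l) ∧
          ∃ l ≤ δ, LimAvg (fun t => V.φ t y) (B.indicator fun _ => 1) l)}}
        ≤ volume ((D ∩ DYB_X N A) ∪ Pᶜ) := by
          refine measure_mono ?_
          rintro z ⟨h1, h2, h3⟩
          by_cases hP : z ∈ P
          · left
            refine ⟨?_, h1, h2⟩
            by_contra hzD
            exact h3 (hgood z ⟨h1, h2⟩ hP hzD)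
          · right
            exact hP
      _ ≤ volume (D ∩ DYB_X N A) + volume Pᶜ := measure_union_le _ _
      _ = (volume.restrict (DYB_X N A)) D := by
          rw [hPc, add_zero, Measure.restrict_apply' (DYB_meas_X hAm)]
      _ ≤ ENNReal.ofReal (1 / δ) * (volume.restrict (DYB_X N A)) {x | nrm x ∈ B} := hD1
      _ = ENNReal.ofReal (1 / δ) * volume {z | z ∈ shell N 1 ∧ nrm z ∈ {y | y ∈ A ∧ y ∈ B}} := by
          rw [Measure.restrict_apply hW]
          congr 2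
          ext z
          simp only [mem_inter_iff, mem_ofPred_eq, DYB_X]
          constructor
          · rintro ⟨a1, a2, a3⟩
            exact ⟨a2, a3, a1⟩
          · rintro ⟨a1, a2, a3⟩
            exact ⟨a3, a1, a2⟩
  · intro y hy hyD
    by_contra h
    exact hyD ⟨hy, h⟩

end

end Pool.Agent.Lib_helper68.MC
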