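import Pool.Agent.Lib_helper68.MC.DefsC
import Pool.Agent.Lib_helper14.MC.TL
import Pool.Agent.Lib_helper23.MC.DYB

/-! Project MC (MP_b08f5f_an), block AT: union bound over a grid of times. -/

set_option autoImplicit false

namespace Pool.Agent.Lib_helper68.MC

open MeasureTheory Filter Topology Set
open scoped ComplexConjugate ENNReal NNReal
open Pool.Agent.Lib_helper25.PV (Conf vel Motion centre inertia NC VFlow)
open Pool.Agent.Lib_helper12.HE (ham rad nrm Gam sig shell turn one LimAvg)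

noncomputable section

/-- the function seen by the pair `p` -/
def AT_D {N : ℕ} (p : (ℂ → ℝ) × ℝ) (y : Conf N) : ℝ := one N p.1 (turn p.2 y) - one N p.1 y

theorem AT_D_cont {N : ℕ} {p : (ℂ → ℝ) × ℝ} (hp : Continuous p.1) : Continuous (AT_D (N := N) p) := by
  unfold AT_D one turn
  fun_prop

theorem AT_Bd_meas {N : ℕ} {F : Finset ((ℂ → ℝ) × ℝ)} (hF : ∀ p ∈ F, Tst p.1) (ε : ℝ) :
    MeasurableSet {y : Conf N | Bd F ε y} := by
  have h : {y : Conf N | Bd F ε y} = ⋃ p ∈ F, {y : Conf N | ε ≤ |AT_D p y|} := by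
    ext y
    simp only [Bd, AT_D, mem_ofPred_eq, mem_iUnion, exists_prop]
  rw [h]
  refine Finset.measurableSet_biUnion F fun p hp => ?_
  exact measurableSet_le measurable_const (AT_D_cont (hF p hp).1).measurable.abs

/-- a common constant for the list -/
theorem AT_const {F : Finset ((ℂ → ℝ) × ℝ)} (hF : ∀ p ∈ F, Tst p.1) :
    ∃ L : ℝ, 0 < L ∧ ∀ p ∈ F, ∀ x y, ‖fderiv ℝ p.1 x - fderiv ℝ p.1 y‖ ≤ L * ‖x - y‖ := by
  classical
  induction F using Finset.induction_on with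
  | empty => exact ⟨1, one_pos, fun p hp => absurd hp (Finset.notMem_empty p)⟩
  | insert a s ha ih =>
    obtain ⟨L, hL, h⟩ := ih fun p hp => hF p (Finset.mem_insert_of_mem hp)
    obtain ⟨L', h'⟩ := (hF a (Finset.mem_insert_self a s)).2.2.2
    refine ⟨max L L', lt_max_of_lt_left hL, fun p hp x y => ?_⟩
    rcases Finset.mem_insert.1 hp with rfl | hp
    · exact (h' x y).trans (mul_le_mul_of_nonneg_right (le_max_right _ _) (norm_nonneg _))
    · exact (h p hp x y).trans (mul_le_mul_of_nonneg_right (le_max_left _ _) (norm_nonneg _))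

theorem AT_lip {N : ℕ} (hN : 1 ≤ N) {w : ℝ → Conf N} (hw : Motion w) {p : (ℂ → ℝ) × ℝ}
    (hp : Tst p.1) {L : ℝ} (hL : ∀ x y, ‖fderiv ℝ p.1 x - fderiv ℝ p.1 y‖ ≤ L * ‖x - y‖)
    (s t : ℝ) : |AT_D p (w t) - AT_D p (w s)| ≤ N * L / (2 * Real.pi) * |t - s| := by
  obtain ⟨h1, h2⟩ := TL_rot hp.2.2.1 hL p.2
  have h3 := TL_main hN hw hp.2.2.1 hL s t
  have h4 := TL_main hN hw h1 h2 s t
  have h5 : AT_D p (w t) - AT_D p (w s) =
      (one N (fun x => p.1 (Complex.exp (p.2 * Complex.I) * x)) (w t) -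
        one N (fun x => p.1 (Complex.exp (p.2 * Complex.I) * x)) (w s)) -
      (one N p.1 (w t) - one N p.1 (w s)) := by
    unfold AT_D one turn
    ring
  rw [h5]
  refine (abs_sub _ _).trans ((add_le_add h4 h3).trans (le_of_eq ?_))
  have := Real.pi_pos
  field_simp
  ring

theorem AT_main {F : Finset ((ℂ → ℝ) × ℝ)} (hF : ∀ p ∈ F, Tst p.1) {ε : ℝ} (hε : 0 < ε) :
    ∃ C > 0, ∀ N : ℕ, 2 ≤ N → ∀ (V : VFlow N) (A : Set (Conf N)), A ⊆ Gam N → MeasurableSet A →
      (∀ y ∈ A, ∀ t, V.φ t y ∈ A) → ∀ T : ℝ, 0 ≤ T →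
      sig N {y | y ∈ A ∧ ∃ t, |t| ≤ T ∧ Bd F ε (V.φ t y)} ≤
        ENNReal.ofReal (C * N * (1 + T)) * sig N {y | y ∈ A ∧ Bd F (ε / 2) y} := by
  obtain ⟨L, hL0, hL⟩ := AT_const hF
  have hpi := Real.pi_pos
  refine ⟨8 * L / (ε * Real.pi) + 3, by positivity, ?_⟩
  intro N hN V A hA hAm hinv T hT
  have hN0 : (0 : ℝ) < N := by exact_mod_cast (by omega : 0 < N)
  have hN1 : (1 : ℝ) ≤ N := by exact_mod_cast (by omega : 1 ≤ N)
  set h : ℝ := ε * Real.pi / (N * L) with hh
  have hh0 : 0 < h := by positivity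
  have hlip : N * L / (2 * Real.pi) * h = ε / 2 := by
    rw [hh]
    field_simp
  set K : ℕ := ⌈4 * T / h⌉₊ with hK
  have hK1 : 4 * T / h ≤ K := Nat.le_ceil _
  have hK2 : (K : ℝ) < 4 * T / h + 1 := Nat.ceil_lt_add_one (by positivity)
  set W : Set (Conf N) := {z | z ∈ shell N 1 ∧ nrm z ∈ {y | y ∈ A ∧ Bd F (ε / 2) y}} with hW
  have hWm : MeasurableSet W :=
    (DYB_meas_shell N 1).inter (DYB_meas_nrm N (hAm.inter (AT_Bd_meas hF _)))
  have hsub : {z | z ∈ shell N 1 ∧ nrm z ∈ {y | y ∈ A ∧ ∃ t, |t| ≤ T ∧ Bd F ε (V.φ t y)}} ⊆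
      ⋃ k ∈ Finset.Icc (-(K : ℤ)) K, V.φ (k * h) ⁻¹' W := by
    rintro z ⟨hz, hzA, t, ht, p, hp, hpt⟩
    have hX : z ∈ DYB_X N A := ⟨hz, hzA⟩
    obtain ⟨h1, h2, h3⟩ := hz
    have hinj := DYB_inj (hA hzA)
    have hr : 0 < rad z := by linarith
    have hr2 : 1 ≤ rad z ^ 2 := by nlinarith
    have hr4 : rad z ^ 2 ≤ 4 := by nlinarith
    have hr0 : 0 < rad z ^ 2 := by linarith
    set u : ℝ := t * rad z ^ 2 with hu
    have hu4 : |u| ≤ 4 * T := by
      rw [hu, abs_mul, abs_of_pos hr0]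
      have := abs_nonneg t
      nlinarith
    set k : ℤ := round (u / h) with hk
    have hk1 : |u / h - k| ≤ 1 / 2 := abs_sub_round _
    have hkh : |u - k * h| ≤ h := by
      have : u - k * h = (u / h - k) * h := by
        field_simp
      rw [this, abs_mul, abs_of_pos hh0]
      nlinarith
    have hkK : |(k : ℝ)| ≤ K + 1 / 2 := by
      have e1 : |u / h| ≤ K := by
        rw [abs_div, abs_of_pos hh0]
        exact (div_le_div_of_nonneg_right hu4 hh0.le).trans hK1
      have e2 : (k : ℝ) = u / h - (u / h - k) := by ring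
      rw [e2]
      exact (abs_sub _ _).trans (add_le_add e1 hk1)
    have hkK' : k ∈ Finset.Icc (-(K : ℤ)) K := by
      rw [Finset.mem_Icc]
      obtain ⟨e1, e2⟩ := abs_le.1 hkK
      constructor
      · have : (-(K : ℤ) : ℝ) < (k : ℝ) + 1 := by push_cast; linarith
        have : (-(K : ℤ)) < k + 1 := by exact_mod_cast this
        omega
      · have : (k : ℝ) < ((K : ℤ) : ℝ) + 1 := by push_cast; linarith
        have : k < (K : ℤ) + 1 := by exact_mod_cast this
        omega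
    rw [mem_iUnion₂]
    refine ⟨k, hkK', ?_⟩
    have hX2 := DYB_X_inv hN V hA hinv hX (k * h)
    refine ⟨hX2.1, hX2.2, p, hp, ?_⟩
    rw [Pool.Agent.Lib_helper12.HE.GL_nrm hN V hinj hr]
    have hmot : Motion (fun t => V.φ t (nrm z)) := V.motion _ (hA hzA).1
    have h5 := AT_lip (by omega) hmot (hF p hp) (hL p hp) (k * h / rad z ^ 2) t
    have h6 : |t - k * h / rad z ^ 2| ≤ h := by
      have e1 : t - k * h / rad z ^ 2 = (u - k * h) / rad z ^ 2 := by
        rw [hu]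
        field_simp
      rw [e1, abs_div, abs_of_pos hr0]
      exact (div_le_self (abs_nonneg _) hr2).trans hkh
    have h7 : N * L / (2 * Real.pi) * |t - k * h / rad z ^ 2| ≤ ε / 2 := by
      rw [← hlip]
      exact mul_le_mul_of_nonneg_left h6 (by positivity)
    have h8 : ε ≤ |AT_D p (V.φ t (nrm z))| := hpt
    have h9 := abs_sub_abs_le_abs_sub (AT_D p (V.φ t (nrm z)))
      (AT_D p (V.φ (k * h / rad z ^ 2) (nrm z)))
    show ε / 2 ≤ |AT_D p (V.φ (k * h / rad z ^ 2) (nrm z))|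
    linarith
  unfold sig
  calc volume {z | z ∈ shell N 1 ∧ nrm z ∈ {y | y ∈ A ∧ ∃ t, |t| ≤ T ∧ Bd F ε (V.φ t y)}}
      ≤ volume (⋃ k ∈ Finset.Icc (-(K : ℤ)) K, V.φ (k * h) ⁻¹' W) := measure_mono hsub
    _ ≤ ∑ k ∈ Finset.Icc (-(K : ℤ)) K, volume (V.φ (k * h) ⁻¹' W) :=
        measure_biUnion_finset_le _ _
    _ = ∑ _k ∈ Finset.Icc (-(K : ℤ)) K, volume W := by
        refine Finset.sum_congr rfl fun k _ => ?_
        exact (V.mp _).measure_preimage hWm.nullMeasurableSet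
    _ = ((2 * K + 1 : ℕ) : ℝ≥0∞) * volume W := by
        rw [Finset.sum_const, Int.card_Icc, nsmul_eq_mul]
        congr 2
        omega
    _ ≤ ENNReal.ofReal ((8 * L / (ε * Real.pi) + 3) * N * (1 + T)) * volume W := by
        gcongr
        rw [← ENNReal.ofReal_natCast]
        apply ENNReal.ofReal_le_ofReal
        push_cast
        have e1 : 4 * T / h = 4 * L / (ε * Real.pi) * N * T := by
          rw [hh]
          field_simp
        rw [e1] at hK2
        have e2 : 0 ≤ L / (ε * Real.pi) := by positivity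
        have e3 : 4 * L / (ε * Real.pi) = 4 * (L / (ε * Real.pi)) := by ring
        have e4 : 8 * L / (ε * Real.pi) = 8 * (L / (ε * Real.pi)) := by ring
        rw [e3] at hK2
        rw [e4]
        have e5 : 0 ≤ L / (ε * Real.pi) * N := by positivity
        have e6 : 0 ≤ L / (ε * Real.pi) * N * T := by positivity
        have e7 : 0 ≤ (N : ℝ) * T := by positivity
        nlinarith

end

end Pool.Agent.Lib_helper68.MC
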