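import Pool.Agent.Lib_helper68.MC.Defs

/-! Project MC (MP_b08f5f_an), blocks DY_far, DY_win, DY_avg. -/

set_option autoImplicit false

namespace Pool.Agent.Lib_helper68.MC

open MeasureTheory Filter Topology Set
open scoped ComplexConjugate ENNReal NNReal
open Pool.Agent.Lib_helper25.PV (Conf vel Motion centre inertia NC VFlow)
open Pool.Agent.Lib_helper12.HE (ham rad nrm Gam sig shell turn one LimAvg)

noncomputable section

theorem DYA_one_cont {N : ℕ} {Φ : ℂ → ℝ} (hΦ : Continuous Φ) : Continuous (one N Φ) := by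
  unfold one
  fun_prop

theorem DYA_turn_cont {N : ℕ} (θ : ℝ) : Continuous (turn (N := N) θ) := by
  unfold turn
  fun_prop

theorem DY_far {N : ℕ} (ε : ℝ) : IsOpen {y : Conf N | Far ε y} := by
  have h : {y : Conf N | Far ε y} = ⋃ Φ : {Φ : ℂ → ℝ // LipschitzWith 1 Φ}, ⋃ θ : ℝ,
      {y : Conf N | ε < |one N Φ.1 (turn θ y) - one N Φ.1 y|} := by
    ext y
    simp only [Far, mem_ofPred_eq, mem_iUnion, Subtype.exists, exists_prop]
  rw [h]
  refine isOpen_iUnion fun Φ => isOpen_iUnion fun θ => ?_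
  have h1 := DYA_one_cont (N := N) Φ.2.continuous
  exact isOpen_lt continuous_const ((h1.comp (DYA_turn_cont θ)).sub h1).abs

theorem DYA_meas_Gam (N : ℕ) : MeasurableSet (Gam N) := by
  have h1 : MeasurableSet {y : Conf N | Function.Injective y} := by
    have h : {z : Conf N | Function.Injective z} =
        ⋂ i, ⋂ j, ⋂ (_ : i ≠ j), {z : Conf N | z i ≠ z j} := by
      ext z
      simp only [mem_ofPred_eq, mem_iInter, Function.Injective]
      constructor
      · intro h i j hij h'
        exact hij (h h')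
      · intro h i j h'
        by_contra hij
        exact h i j hij h'
    rw [h]
    refine MeasurableSet.iInter fun i => MeasurableSet.iInter fun j =>
      MeasurableSet.iInter fun _ => ?_
    exact (measurableSet_eq_fun (measurable_pi_apply i) (measurable_pi_apply j)).compl
  have h2 : MeasurableSet {y : Conf N | ∑ i, y i = 0} :=
    measurableSet_eq_fun (by fun_prop) measurable_const
  have h3 : MeasurableSet {y : Conf N | (∑ i, ‖y i‖ ^ 2) / (N : ℝ) = 1} :=
    measurableSet_eq_fun (by fun_prop) measurable_const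
  exact h1.inter (h2.inter h3)

theorem DYA_meas_ham (N : ℕ) : Measurable (ham (N := N)) := by
  unfold ham
  refine Measurable.const_mul ?_ _
  refine Finset.measurable_fun_sum _ fun i _ => Finset.measurable_fun_sum _ fun j _ => ?_
  fun_prop

theorem DY_win {N : ℕ} (hN : 2 ≤ N) (a b : ℝ) : MeasurableSet (Win N a b) := by
  have h1 : Measurable fun y : Conf N => ham y / (N : ℝ) ^ 2 :=
    (DYA_meas_ham N).div_const _
  exact (DYA_meas_Gam N).inter
    ((measurableSet_le measurable_const h1).inter (measurableSet_le h1 measurable_const))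

/-- the difference of one-particle functions on `Γ_N` -/
theorem DYA_two {N : ℕ} {y : Conf N} (hy : y ∈ Gam N) {Φ : ℂ → ℝ} (hΦ : LipschitzWith 1 Φ)
    (θ : ℝ) : |one N Φ (turn θ y) - one N Φ y| ≤ 2 := by
  have hN : N ≠ 0 := by
    rintro rfl
    have := hy.2.2
    simp at this
  have hN0 : (0 : ℝ) < N := by exact_mod_cast Nat.pos_of_ne_zero hN
  have h1 : one N Φ (turn θ y) - one N Φ y = (∑ k, (Φ (turn θ y k) - Φ (y k))) / N := by
    unfold one
    rw [Finset.sum_sub_distrib, sub_div]
  have h2 : ∀ k, |Φ (turn θ y k) - Φ (y k)| ≤ 1 + ‖y k‖ ^ 2 := by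
    intro k
    have h3 := hΦ.dist_le_mul (turn θ y k) (y k)
    rw [Real.dist_eq, NNReal.coe_one, one_mul, dist_eq_norm] at h3
    have h4 : ‖turn θ y k - y k‖ ≤ 2 * ‖y k‖ := by
      refine (norm_sub_le _ _).trans ?_
      unfold turn
      rw [norm_mul, Complex.norm_exp_ofReal_mul_I, one_mul]
      linarith
    nlinarith [sq_nonneg (‖y k‖ - 1)]
  rw [h1, abs_div, abs_of_pos hN0, div_le_iff₀ hN0]
  refine (Finset.abs_sum_le_sum_abs _ _).trans ((Finset.sum_le_sum fun k _ => h2 k).trans ?_)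
  have h5 := hy.2.2
  rw [div_eq_iff hN0.ne', one_mul] at h5
  rw [Finset.sum_add_distrib, h5, Finset.sum_const, Finset.card_univ, Fintype.card_fin,
    nsmul_eq_mul]
  linarith

/-- from the fraction of time to the averages -/
theorem DY_avg {N : ℕ} (hN : 2 ≤ N) {w : ℝ → Conf N} (hw : Continuous w)
    (hG : ∀ t, w t ∈ Gam N) {ε δ : ℝ} (hε : 0 ≤ ε)
    (hl : ∃ l ≤ δ, LimAvg w ({y : Conf N | Far ε y}.indicator fun _ => 1) l)
    {Φ : ℂ → ℝ} (hΦ : LipschitzWith 1 Φ) {θ l l' : ℝ} (h1 : LimAvg w (one N Φ) l)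
    (h2 : LimAvg w (fun z => one N Φ (turn θ z)) l') : |l' - l| ≤ ε + 2 * δ := by
  obtain ⟨m, hm, hlm⟩ := hl
  have hc1 : Continuous fun t => one N Φ (w t) := (DYA_one_cont hΦ.continuous).comp hw
  have hc2 : Continuous fun t => one N Φ (turn θ (w t)) :=
    (DYA_one_cont hΦ.continuous).comp ((DYA_turn_cont θ).comp hw)
  set I : ℝ → ℝ := fun t => {y : Conf N | Far ε y}.indicator (fun _ => (1 : ℝ)) (w t) with hI
  have hIm : Measurable I :=
    (measurable_const.indicator (DY_far ε).measurableSet).comp hw.measurable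
  have hI01 : ∀ t, 0 ≤ I t ∧ I t ≤ 1 := by
    intro t
    by_cases h : w t ∈ {y : Conf N | Far ε y}
    · simp only [hI, Set.indicator_of_mem h]
      exact ⟨zero_le_one, le_rfl⟩
    · simp only [hI, Set.indicator_of_notMem h]
      exact ⟨le_rfl, zero_le_one⟩
  have hIi : ∀ T : ℝ, IntervalIntegrable I volume 0 T := by
    intro T
    refine (intervalIntegrable_const (c := (1 : ℝ))).mono_fun hIm.aestronglyMeasurable
      (Eventually.of_forall fun t => ?_)
    show ‖I t‖ ≤ ‖(1 : ℝ)‖
    rw [Real.norm_eq_abs, abs_of_nonneg (hI01 t).1, norm_one]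
    exact (hI01 t).2
  have hpt : ∀ t, |one N Φ (turn θ (w t)) - one N Φ (w t)| ≤ ε + 2 * I t := by
    intro t
    by_cases h : w t ∈ {y : Conf N | Far ε y}
    · have h3 := DYA_two (hG t) hΦ θ
      simp only [hI, Set.indicator_of_mem h]
      linarith
    · simp only [hI, Set.indicator_of_notMem h]
      have h3 : ¬ Far ε (w t) := h
      have h4 : |one N Φ (turn θ (w t)) - one N Φ (w t)| ≤ ε := by
        by_contra hcon
        exact h3 ⟨Φ, hΦ, θ, not_le.1 hcon⟩
      linarith
  have h3 : Tendsto (fun T : ℝ => |(T⁻¹ * ∫ t in (0 : ℝ)..T, one N Φ (turn θ (w t))) -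
      T⁻¹ * ∫ t in (0 : ℝ)..T, one N Φ (w t)|) atTop (𝓝 |l' - l|) := (h2.sub h1).abs
  have h4 : Tendsto (fun T : ℝ => ε + 2 * (T⁻¹ * ∫ t in (0 : ℝ)..T, I t)) atTop
      (𝓝 (ε + 2 * m)) := (hlm.const_mul 2).const_add ε
  have h5 : |l' - l| ≤ ε + 2 * m := by
    refine le_of_tendsto_of_tendsto h3 h4 ?_
    filter_upwards [eventually_gt_atTop 0] with T hT
    rw [← mul_sub, ← intervalIntegral.integral_sub (hc2.intervalIntegrable 0 T)
      (hc1.intervalIntegrable 0 T), abs_mul, abs_of_pos (inv_pos.2 hT)]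
    have h6 : |∫ t in (0 : ℝ)..T, (one N Φ (turn θ (w t)) - one N Φ (w t))| ≤
        ∫ t in (0 : ℝ)..T, (ε + 2 * I t) := by
      refine (intervalIntegral.abs_integral_le_integral_abs hT.le).trans ?_
      exact intervalIntegral.integral_mono_on hT.le
        ((hc2.sub hc1).abs.intervalIntegrable 0 T)
        (intervalIntegrable_const.add ((hIi T).const_mul 2)) fun t _ => hpt t
    have h7 : ∫ t in (0 : ℝ)..T, (ε + 2 * I t) = T * ε + 2 * ∫ t in (0 : ℝ)..T, I t := by
      rw [intervalIntegral.integral_add intervalIntegrable_const ((hIi T).const_mul 2),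
        intervalIntegral.integral_const, intervalIntegral.integral_const_mul, sub_zero,
        smul_eq_mul]
    rw [h7] at h6
    have h8 : T⁻¹ * (T * ε + 2 * ∫ t in (0 : ℝ)..T, I t) =
        ε + 2 * (T⁻¹ * ∫ t in (0 : ℝ)..T, I t) := by
      field_simp
    rw [← h8]
    exact mul_le_mul_of_nonneg_left h6 (inv_pos.2 hT).le
  linarith

end

end Pool.Agent.Lib_helper68.MC
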