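import Pool.Agent.Lib_helper68.MC.DefsD
import Pool.Agent.Lib_helper23.MC.DYA

/-! Project MC (MP_b08f5f_an), blocks D2_open, D2_avg. -/

set_option autoImplicit false

namespace Pool.Agent.Lib_helper68.MC

open MeasureTheory Filter Topology Set
open scoped ComplexConjugate ENNReal NNReal
open Pool.Agent.Lib_helper25.PV (Conf vel Motion centre inertia NC VFlow)
open Pool.Agent.Lib_helper12.HE (ham rad nrm Gam sig shell turn one LimAvg)

noncomputable section

theorem D2_open {N : ℕ} (ρ : ℂ → ℝ) (ε : ℝ) : IsOpen {y : Conf N | Off ρ ε y} := by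
  have h : {y : Conf N | Off ρ ε y} = ⋃ Φ : {Φ : ℂ → ℝ // LipschitzWith 1 Φ},
      {y : Conf N | ε < |one N Φ.1 y - ∫ x, Φ.1 x * ρ x|} := by
    ext y
    simp only [Off, mem_ofPred_eq, mem_iUnion, Subtype.exists, exists_prop]
  rw [h]
  refine isOpen_iUnion fun Φ => ?_
  exact isOpen_lt continuous_const ((DYA_one_cont Φ.2.continuous).sub continuous_const).abs

theorem D2_lip {Φ : ℂ → ℝ} (hΦ : LipschitzWith 1 Φ) (x : ℂ) :
    |Φ x - Φ 0| ≤ (1 + ‖x‖ ^ 2) / 2 := by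
  have h := hΦ.dist_le_mul x 0
  rw [Real.dist_eq, NNReal.coe_one, one_mul, dist_zero_right] at h
  nlinarith [sq_nonneg (‖x‖ - 1)]

theorem D2_int {ρ : ℂ → ℝ} (h : Dens ρ) {Φ : ℂ → ℝ} (hΦ : LipschitzWith 1 Φ) :
    Integrable fun x => (Φ x - Φ 0) * ρ x := by
  have hd : Integrable fun x => 1 / 2 * ρ x + 1 / 2 * (‖x‖ ^ 2 * ρ x) :=
    (h.int.const_mul _).add (h.mom.const_mul _)
  refine hd.mono' ?_ (Eventually.of_forall fun x => ?_)
  · exact ((hΦ.continuous.sub continuous_const).measurable.mul h.meas).aestronglyMeasurable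
  · rw [norm_mul, Real.norm_eq_abs, Real.norm_eq_abs, abs_of_nonneg (h.nonneg x)]
    have h1 := mul_le_mul_of_nonneg_right (D2_lip hΦ x) (h.nonneg x)
    calc |Φ x - Φ 0| * ρ x ≤ (1 + ‖x‖ ^ 2) / 2 * ρ x := h1
      _ = _ := by ring

theorem D2_two {N : ℕ} {ρ : ℂ → ℝ} (h : Dens ρ) (hm : mo ρ ≤ 1) {y : Conf N} (hy : y ∈ Gam N)
    {Φ : ℂ → ℝ} (hΦ : LipschitzWith 1 Φ) : |one N Φ y - ∫ x, Φ x * ρ x| ≤ 2 := by
  have hN : N ≠ 0 := by
    rintro rfl
    have := hy.2.2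
    simp at this
  have hN0 : (0 : ℝ) < N := by exact_mod_cast Nat.pos_of_ne_zero hN
  have h1 : ∫ x, Φ x * ρ x = (∫ x, (Φ x - Φ 0) * ρ x) + Φ 0 := by
    have e1 : ∀ x, Φ x * ρ x = (Φ x - Φ 0) * ρ x + Φ 0 * ρ x := fun x => by ring
    simp only [e1]
    rw [integral_add (D2_int h hΦ) (h.int.const_mul _), integral_const_mul, h.one, mul_one]
  have h2 : one N Φ y = (∑ k, (Φ (y k) - Φ 0)) / N + Φ 0 := by
    unfold one
    rw [Finset.sum_sub_distrib, Finset.sum_const, Finset.card_univ, Fintype.card_fin,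
      nsmul_eq_mul]
    field_simp
    ring
  have h3 : |(∑ k, (Φ (y k) - Φ 0)) / N| ≤ 1 := by
    rw [abs_div, abs_of_pos hN0, div_le_iff₀ hN0]
    refine (Finset.abs_sum_le_sum_abs _ _).trans
      ((Finset.sum_le_sum fun k _ => D2_lip hΦ (y k)).trans ?_)
    have h5 := hy.2.2
    rw [div_eq_iff hN0.ne', one_mul] at h5
    rw [← Finset.sum_div, Finset.sum_add_distrib, h5, Finset.sum_const, Finset.card_univ,
      Fintype.card_fin, nsmul_eq_mul]
    linarith
  have h4 : |∫ x, (Φ x - Φ 0) * ρ x| ≤ 1 := by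
    have e1 : ∀ x, ‖(Φ x - Φ 0) * ρ x‖ ≤ 1 / 2 * ρ x + 1 / 2 * (‖x‖ ^ 2 * ρ x) := by
      intro x
      rw [norm_mul, Real.norm_eq_abs, Real.norm_eq_abs, abs_of_nonneg (h.nonneg x)]
      have h1 := mul_le_mul_of_nonneg_right (D2_lip hΦ x) (h.nonneg x)
      calc |Φ x - Φ 0| * ρ x ≤ (1 + ‖x‖ ^ 2) / 2 * ρ x := h1
        _ = _ := by ring
    have hd : Integrable fun x => 1 / 2 * ρ x + 1 / 2 * (‖x‖ ^ 2 * ρ x) :=
      (h.int.const_mul _).add (h.mom.const_mul _)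
    have e2 := norm_integral_le_of_norm_le hd (Eventually.of_forall e1)
    rw [Real.norm_eq_abs] at e2
    refine e2.trans ?_
    rw [integral_add (h.int.const_mul _) (h.mom.const_mul _), integral_const_mul,
      integral_const_mul, h.one]
    have hm' : ∫ x, ‖x‖ ^ 2 * ρ x ≤ 1 := hm
    linarith
  rw [h1, h2]
  have h5 : (∑ k, (Φ (y k) - Φ 0)) / N + Φ 0 - ((∫ x, (Φ x - Φ 0) * ρ x) + Φ 0) =
      (∑ k, (Φ (y k) - Φ 0)) / N - ∫ x, (Φ x - Φ 0) * ρ x := by ring
  rw [h5]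
  exact (abs_sub _ _).trans (by linarith)

theorem D2_avg {N : ℕ} (hN : 2 ≤ N) {ρ : ℂ → ℝ} (h : Dens ρ) (hm : mo ρ ≤ 1) {w : ℝ → Conf N}
    (hw : Continuous w) (hG : ∀ t, w t ∈ Gam N) {ε δ : ℝ} (hε : 0 ≤ ε)
    (hl : ∃ l ≤ δ, LimAvg w ({y : Conf N | Off ρ ε y}.indicator fun _ => 1) l)
    {Φ : ℂ → ℝ} (hΦ : LipschitzWith 1 Φ) {l : ℝ} (h1 : LimAvg w (one N Φ) l) :
    |l - ∫ x, Φ x * ρ x| ≤ ε + 2 * δ := by
  obtain ⟨m, hmδ, hlm⟩ := hl
  set c : ℝ := ∫ x, Φ x * ρ x with hc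
  have hc1 : Continuous fun t => one N Φ (w t) := (DYA_one_cont hΦ.continuous).comp hw
  set I : ℝ → ℝ := fun t => {y : Conf N | Off ρ ε y}.indicator (fun _ => (1 : ℝ)) (w t) with hI
  have hIm : Measurable I :=
    (measurable_const.indicator (D2_open ρ ε).measurableSet).comp hw.measurable
  have hI01 : ∀ t, 0 ≤ I t ∧ I t ≤ 1 := by
    intro t
    by_cases h : w t ∈ {y : Conf N | Off ρ ε y}
    · simp only [hI, Set.indicator_of_mem h]
      exact ⟨zero_le_one, le_rfl⟩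
    · simp only [hI, Set.indicator_of_notMem h]
      exact ⟨le_rfl, zero_le_one⟩
  have hIi : ∀ T : ℝ, IntervalIntegrable I volume 0 T := by
    intro T
    refine (intervalIntegrable_const (c := (1 : ℝ))).mono_fun hIm.aestronglyMeasurable
      (Eventually.of_forall fun t => ?_)
    show ‖I t‖ ≤ ‖(1 : ℝ)‖
    rw [Real.norm_eq_abs, abs_of_nonneg (hI01 t).1, norm_one]
    exact (hI01 t).2
  have hpt : ∀ t, |one N Φ (w t) - c| ≤ ε + 2 * I t := by
    intro t
    by_cases h' : w t ∈ {y : Conf N | Off ρ ε y}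
    · have h3 := D2_two h hm (hG t) hΦ
      simp only [hI, Set.indicator_of_mem h']
      rw [← hc] at h3
      linarith
    · simp only [hI, Set.indicator_of_notMem h']
      have h3 : ¬ Off ρ ε (w t) := h'
      have h4 : |one N Φ (w t) - c| ≤ ε := by
        by_contra hcon
        exact h3 ⟨Φ, hΦ, not_le.1 hcon⟩
      linarith
  have h3 : Tendsto (fun T : ℝ => |(T⁻¹ * ∫ t in (0 : ℝ)..T, one N Φ (w t)) - c|) atTop
      (𝓝 |l - c|) := (h1.sub_const c).abs
  have h4 : Tendsto (fun T : ℝ => ε + 2 * (T⁻¹ * ∫ t in (0 : ℝ)..T, I t)) atTop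
      (𝓝 (ε + 2 * m)) := (hlm.const_mul 2).const_add ε
  have h5 : |l - c| ≤ ε + 2 * m := by
    refine le_of_tendsto_of_tendsto h3 h4 ?_
    filter_upwards [eventually_gt_atTop 0] with T hT
    have h6 : |∫ t in (0 : ℝ)..T, (one N Φ (w t) - c)| ≤ ∫ t in (0 : ℝ)..T, (ε + 2 * I t) := by
      refine (intervalIntegral.abs_integral_le_integral_abs hT.le).trans ?_
      exact intervalIntegral.integral_mono_on hT.le
        ((hc1.sub continuous_const).abs.intervalIntegrable 0 T)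
        (intervalIntegrable_const.add ((hIi T).const_mul 2)) fun t _ => hpt t
    have h7 : ∫ t in (0 : ℝ)..T, (ε + 2 * I t) = T * ε + 2 * ∫ t in (0 : ℝ)..T, I t := by
      rw [intervalIntegral.integral_add intervalIntegrable_const ((hIi T).const_mul 2),
        intervalIntegral.integral_const, intervalIntegral.integral_const_mul, sub_zero,
        smul_eq_mul]
    have h8 : T⁻¹ * (T * ε + 2 * ∫ t in (0 : ℝ)..T, I t) =
        ε + 2 * (T⁻¹ * ∫ t in (0 : ℝ)..T, I t) := by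
      field_simp
    have h9 : (T⁻¹ * ∫ t in (0 : ℝ)..T, one N Φ (w t)) - c =
        T⁻¹ * ∫ t in (0 : ℝ)..T, (one N Φ (w t) - c) := by
      rw [intervalIntegral.integral_sub (hc1.intervalIntegrable 0 T) intervalIntegrable_const,
        intervalIntegral.integral_const, sub_zero, smul_eq_mul]
      field_simp
    rw [h9, abs_mul, abs_of_pos (inv_pos.2 hT), ← h8, ← h7]
    exact mul_le_mul_of_nonneg_left h6 (inv_pos.2 hT).le
  linarith

end

end Pool.Agent.Lib_helper68.MC
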